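import Pool.Agent.Q15.AP.P5

/-!
# All polynomials over `ℚ` of degree `d ≥ 5` with a rational preperiodic point: all moments

Order ALL polynomials `f` of degree `d` over `ℚ` by the height of their coefficients: `f` has height
at most `H` if `f = (n_0 + n_1 z + ... + n_d z ^ d) / b` with integers `|n_i| ≤ H`, `1 ≤ b ≤ H`.
About `H ^ (d + 2)` polynomials of degree `d` have height at most `H`; most of them have no rational
preperiodic point. Let `d ≥ 5`.

* The number of those of height at most `H` with a rational preperiodic point is between
  `H ^ (d + 1) / 4` and `30 * 5 ^ d * H ^ (d + 1)`.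
* All but `O(H ^ (d + 1 - (d - 4) / (d + 2)))` of them have exactly one rational preperiodic point,
  a fixed point.
* The sum of `(number of rational preperiodic points) ^ p` over the exceptions is
  `O(H ^ (d + 1 - (d - 4) / (d + 2) + ε))` for each `p` and `ε > 0`.

So, for each `p`, the average of the `p`-th power of the number of rational preperiodic points over
all polynomials of degree `d` and height at most `H` which have one, converges to `1`, with a power
saving.

Proof. Let `S` be a finite set of rational numbers which `f` maps to itself. From the absolute values,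
the members of `S` have height at most `3 H`, and the height of `f(x)` and `x` bounds the number of
`f` with `f(x) = y` (a linear equation in `(n, b)`; its solutions in the box are
`O(H ^ (d + 1) / max(|u|, v) ^ (d - 1))` in number for `x = u / v`). If `x` is a member of
maximal height `h` then `f(x) = y` for some `y` of height at most `h`; summing over all pairs with
`h ≥ K` gives `O(H ^ (d + 1) / K ^ (d - 4))`; two preperiodic points of height less than `K` give two
independent equations. The moments follow from the bound `d ^ s max(5, d)` of the starting file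
`PolynomialsExact`, where `s` is the number of the primes dividing `b n_d`.
-/

set_option autoImplicit false

namespace Pool.Agent.Results.MP_c076ed_nt.AllMomentsAllPolynomials

open Polynomial

/-- The rational numbers with a finite forward orbit under `f`. -/
def preperiodic (f : ℚ[X]) : Set ℚ :=
  {x | (Set.range fun k : ℕ => (fun y : ℚ => f.eval y)^[k] x).Finite}

/-- The polynomials over `ℚ` of degree exactly `d` and of height at most `H`: for some integer `b`
with `1 ≤ b ≤ H` all coefficients of `b f` are integers of absolute value at most `H`. -/
def polynomials (d H : ℕ) : Set ℚ[X] :=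
  {f | f.natDegree = d ∧ ∃ b : ℕ, 0 < b ∧ b ≤ H ∧ ∀ i, ∃ m : ℤ, |m| ≤ H ∧ (b : ℚ) * f.coeff i = m}

/-- Those with a rational preperiodic point. -/
def withPoint (d H : ℕ) : Set ℚ[X] := {f | f ∈ polynomials d H ∧ (preperiodic f).Nonempty}

/-- The polynomial has exactly one rational preperiodic point, and this is a fixed point. -/
def Typical (f : ℚ[X]) : Prop := ∃ x : ℚ, f.eval x = x ∧ preperiodic f = {x}

/-- The polynomials of height at most `H` with a rational preperiodic point which are not typical. -/
def exceptional (d H : ℕ) : Set ℚ[X] := {f | f ∈ withPoint d H ∧ ¬ Typical f}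

/-- Let `d ≥ 5`, `p ≥ 0` be integers and `ε > 0`. All polynomials of degree `d` over `ℚ` have finitely
many rational preperiodic points; and there is `C` such that for every integer `H ≥ 1`: the number of
the polynomials of degree `d` and height at most `H` with a rational preperiodic point is between
`H ^ (d + 1) / 4` and `30 * 5 ^ d * H ^ (d + 1)`; the sum of the `p`-th powers of the number of
rational preperiodic points, over those of them which are not typical, is at most
`C H ^ (d + 1 - (d - 4) / (d + 2) + ε)`. -/
theorem result (d : ℕ) (hd : 5 ≤ d) (p : ℕ) (ε : ℝ) (hε : 0 < ε) :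
    (∀ H : ℕ, ∀ f ∈ polynomials d H, (preperiodic f).Finite) ∧ ∃ C : ℝ, ∀ H : ℕ, 1 ≤ H →
      (withPoint d H).Finite ∧
      (H : ℝ) ^ (d + 1) ≤ 4 * ((withPoint d H).ncard : ℝ) ∧
      ((withPoint d H).ncard : ℝ) ≤ 30 * 5 ^ d * (H : ℝ) ^ (d + 1) ∧
      ∑ᶠ f ∈ exceptional d H, ((preperiodic f).ncard : ℝ) ^ p ≤
        C * (H : ℝ) ^ ((d : ℝ) + 1 - ((d : ℝ) - 4) / ((d : ℝ) + 2) + ε) := by
  obtain ⟨C, hC⟩ := Pool.Agent.Q15.AP.moments hd p ε hε
  refine ⟨fun H f hf => Pool.Agent.Q15.AP.pre_finite (by omega) hf, C, fun H hH => ?_⟩
  obtain ⟨h1, h2⟩ := Pool.Agent.Q15.AP.par_upper hd hH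
  exact ⟨h1, Pool.Agent.Q15.AP.par_lower hd hH, h2, hC H hH⟩

end Pool.Agent.Results.MP_c076ed_nt.AllMomentsAllPolynomials
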