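import Pool.Agent.Q15.AU.A5

/-!
# All unicritical polynomials over `ℚ` with a rational preperiodic point: all moments

Every polynomial of degree `d` over `ℚ` with only one critical point, which is not conjugate to
`a z ^ d`, is conjugate over `ℚ` to some `f_t(z) = t z ^ d + 1`, `t ≠ 0`
(`a (z - γ) ^ d + β` to the one with `t = a (β - γ) ^ (d - 1)`). Let `d ≥ 3`, of any parity.

* The number of rational `t` of height at most `X` such that `f_t` has a rational preperiodic point is
  of order `X ^ (2 / d)`.
* All but `O(X ^ (1 / d + ε))` of these `f_t` have no other preperiodic point in `ℚ` than a fixed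
  point `x` and, if `d` is even, `-x`.
* All moments of the number of rational preperiodic points over the exceptional `t` are
  `O(X ^ (1 / d + ε))`.

So the average of the `p`-th power of the number of the rational preperiodic points over all
unicritical polynomials which have some converges to `2 ^ p` for `d` even and to `1` for `d` odd, with
a power saving. (The point at infinity is not counted.)

Proof. Let `S` be a finite set of rational numbers with `f_t(S) ⊆ S`. From the absolute values one
gets `t = n e ^ (d - 1) / a ^ d` in lowest terms, and all members of `S` are of the form `a u / e`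
with an integer `u`; if `f_t` maps `a u / e` to `a w / e`, then `a w = n u ^ d + e`. So `a` divides
`u ^ d - w ^ d` for all members of `S`, and `|n| |u| ^ (d - 1) ≤ 2 X ^ (1 / d)`. If the
preperiodic points do not all have the same `d`-th power, then `t` is given by such `n`, `u`, `w` with
`u ^ d ≠ w ^ d` and by a divisor `a` of `u ^ d - w ^ d`, where `w` belongs to the image of `u` or both
belong to fixed points (then `e = a w - n u ^ d` or `e = a u - n u ^ d`). The moments follow from the
bound `d ^ s max(5, d)` of the starting file `PolynomialsExact`, where `s` is the number of the primes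
dividing the denominator of `t`.
-/

set_option autoImplicit false

namespace Pool.Agent.Results.MP_c076ed_nt.AllUnicriticalPolynomials

/-- The rational numbers with a finite forward orbit under `z ↦ t z ^ d + 1`. -/
def preperiodic (d : ℕ) (t : ℚ) : Set ℚ :=
  {z | (Set.range fun k : ℕ => (fun w : ℚ => t * w ^ d + 1)^[k] z).Finite}

/-- The rational numbers `t ≠ 0` with numerator and denominator at most `X` in absolute value such
that `t z ^ d + 1` has a rational preperiodic point. -/
def parameters (d : ℕ) (X : ℝ) : Set ℚ :=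
  {t | t ≠ 0 ∧ ((|t.num| : ℤ) : ℝ) ≤ X ∧ (t.den : ℝ) ≤ X ∧ (preperiodic d t).Nonempty}

/-- The set of the rational preperiodic points is `{x, -x}` (if `d` is even) or `{x}` (if `d` is odd),
where `x ≠ 0` is a fixed point. -/
def Typical (d : ℕ) (t : ℚ) : Prop :=
  ∃ x : ℚ, x ≠ 0 ∧ t * x ^ d + 1 = x ∧ preperiodic d t = if Even d then {x, -x} else {x}

/-- The parameters which are not typical. -/
def exceptional (d : ℕ) (X : ℝ) : Set ℚ := {t | t ∈ parameters d X ∧ ¬ Typical d t}

/-- Every polynomial `a (z - γ) ^ d + β` over `ℚ` with `a ≠ 0`, `β ≠ γ`, `d ≥ 1`, is conjugate over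
`ℚ` to `t z ^ d + 1` with `t = a (β - γ) ^ (d - 1)`. -/
def AllUnicritical (d : ℕ) : Prop :=
  ∀ a γ β : ℚ, a ≠ 0 → β ≠ γ → ∃ l : ℚ, l ≠ 0 ∧ ∀ z : ℚ,
    a * ((l * z + γ) - γ) ^ d + β = l * ((a * (β - γ) ^ (d - 1)) * z ^ d + 1) + γ

/-- Let `d ≥ 3`, `p ≥ 0` be integers and `ε > 0`. There is `C` such that for every `X ≥ 1`: the number
of rational `t ≠ 0` of height at most `X` such that `t z ^ d + 1` has a rational preperiodic point is
between `X ^ (2 / d) / C` and `C X ^ (2 / d)`; the sum of the `p`-th powers of the number of rational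
preperiodic points of `t z ^ d + 1`, over those of them which are not typical, is at most
`C X ^ (1 / d + ε)` (for `p = 0`: the number of these `t`). -/
theorem result (d : ℕ) (hd : 3 ≤ d) (p : ℕ) (ε : ℝ) (hε : 0 < ε) :
    AllUnicritical d ∧ (∀ t : ℚ, t ≠ 0 → (preperiodic d t).Finite) ∧ ∃ C : ℝ, ∀ X : ℝ, 1 ≤ X →
      (parameters d X).Finite ∧
      X ^ (2 / (d : ℝ)) ≤ C * ((parameters d X).ncard : ℝ) ∧
      ((parameters d X).ncard : ℝ) ≤ C * X ^ (2 / (d : ℝ)) ∧
      ∑ᶠ t ∈ exceptional d X, ((preperiodic d t).ncard : ℝ) ^ p ≤ C * X ^ (1 / (d : ℝ) + ε) := by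
  have hd0 : (0 : ℝ) < d := by
    have : 0 < d := by omega
    exact_mod_cast this
  obtain ⟨K₁, hK₁, h1⟩ := Pool.Agent.Q15.AU.par_upper hd
  obtain ⟨K₂, hK₂, h2⟩ := Pool.Agent.Q15.AU.moments hd p (ε * d) (by positivity)
  refine ⟨?_, fun t ht => Pool.Agent.Q15.AU.pre_finite (by omega) ht, max (max K₁ K₂) 64,
    fun X hX => ?_⟩
  · intro a γ β ha hβ
    refine ⟨β - γ, sub_ne_zero.2 hβ, fun z => ?_⟩
    have h3 : (β - γ) ^ d = (β - γ) * (β - γ) ^ (d - 1) := by
      rw [← pow_succ']
      congr 1
      omega
    rw [add_sub_cancel_right, mul_pow, h3]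
    ring
  obtain ⟨h3, h4⟩ := h1 X hX
  have h7 := Pool.Agent.Q15.AU.par_lower hd hX
  have hsub : exceptional d X ⊆ Pool.Agent.Q15.AU.Exc d X := by
    rintro t ⟨ht1, ht2⟩
    by_contra hcon
    exact ht2 (Pool.Agent.Q15.AU.good_of hd ht1 hcon)
  have h6 := h2 X hX _ hsub
  have e1 : (X ^ (1 / (d : ℝ))) ^ (2 : ℝ) = X ^ (2 / (d : ℝ)) := by
    rw [← Real.rpow_mul (by linarith)]
    congr 1
    ring
  have e2 : (X ^ (1 / (d : ℝ))) ^ (1 + ε * d) = X ^ (1 / (d : ℝ) + ε) := by
    rw [← Real.rpow_mul (by linarith)]
    congr 1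
    field_simp
  rw [e1] at h4 h7
  rw [e2] at h6
  refine ⟨h3, ?_, ?_, ?_⟩
  · refine h7.trans (mul_le_mul_of_nonneg_right (le_max_right _ _) (Nat.cast_nonneg _))
  · refine h4.trans (mul_le_mul_of_nonneg_right ((le_max_left _ _).trans (le_max_left _ _)) ?_)
    positivity
  · refine le_trans h6 (mul_le_mul_of_nonneg_right ((le_max_right _ _).trans (le_max_left _ _)) ?_)
    positivity

end Pool.Agent.Results.MP_c076ed_nt.AllUnicriticalPolynomials
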