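import Pool.Agent.Y673.PP.Fin
import Pool.Agent.Q327.MF.Gen

/-!
# MP_c076ed_nt: uniform boundedness for all but few members of every family of unicritical polynomials
with any number of parameters, uniformly in the family

Let `e ≥ 2`, `r`, `d` and `ε > 0` be given.  There are `N` and `C` such that for every `H ≥ 1` and ALL
`F`, `G` in `ℤ[t_1, ..., t_r]` of total degree at most `d`, with coefficients whose absolute values have
sum at most `H` and such that `F / G` is not constant, the following holds for ALL finite sets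
`S_1, ..., S_r` of rational numbers of height at most `H` with at least `m` elements each: at most

  `C H ^ ε |S_1| ⋯ |S_r| / m`

points `z ∈ S_1 × ⋯ × S_r` with `G(z) ≠ 0` are such that the polynomial `x ^ e + F(z)/G(z)` has more than
`N` rational preperiodic points.

For example, if all `S_i` are the integers up to `H` in absolute value, these are `O(H ^ (r - 1 + ε))` of
the `(2H + 1) ^ r` members, if the `S_i` are the primes or the squares up to `H`, `O(H ^ ε |S| ^ (r - 1))`
of `|S| ^ r` members, if they are the rational numbers of height at most `H`, `O(H ^ (2 r - 2 + ε))` of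
about `H ^ (2 r)` members.  The exponent `r - 1` is the best possible if there is a single exceptional `c`,
as `F / G` can be equal to `c` on a hypersurface.  The bounds for `N` and for the number of exceptions do
not depend on the family.

The starting file `FewExceptionalUnicritical` counts all `c` of height at most `X`.  The proof combines
this count with a bound for the heights of the values of `F / G` and with the Schwartz-Zippel lemma for
the hypersurfaces `F = c G`.
-/

set_option autoImplicit false

namespace Pool.Agent.Results.MP_c076ed_nt.EveryUnicriticalFamily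

/-- The rational numbers with a finite forward orbit under `x ↦ x ^ e + c`. -/
def preperiodic (e : ℕ) (c : ℚ) : Set ℚ :=
  {x | (Set.range fun k : ℕ => (fun w : ℚ => w ^ e + c)^[k] x).Finite}

/-- `F / G` has `r` parameters, `F`, `G` have total degree at most `d`, the absolute values of the
coefficients of each of them have sum at most `H`, and `F / G` is not constant. -/
structure IsFamily {r : ℕ} (d : ℕ) (H : ℝ) (F G : MvPolynomial (Fin r) ℤ) : Prop where
  degree_left : F.totalDegree ≤ d
  degree_right : G.totalDegree ≤ d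
  length_left : (∑ m ∈ F.support, |((F.coeff m : ℤ) : ℝ)|) ≤ H
  length_right : (∑ m ∈ G.support, |((G.coeff m : ℤ) : ℝ)|) ≤ H
  nonconstant : ∀ a b : ℤ, MvPolynomial.C a * F = MvPolynomial.C b * G → a = 0 ∧ b = 0

/-- **Uniform boundedness for all but few members of every family of unicritical polynomials.** -/
theorem result (e : ℕ) (he : 2 ≤ e) (r d : ℕ) (ε : ℝ) (hε : 0 < ε) : ∃ (N : ℕ) (C : ℝ),
    ∀ H : ℝ, 1 ≤ H → ∀ F G : MvPolynomial (Fin r) ℤ, IsFamily d H F G →
    -- finite sets `S_i` of at least `m` rational numbers, numerators and denominators at most `H`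
    ∀ (S : Fin r → Finset ℚ) (m : ℕ), 1 ≤ m → (∀ i, m ≤ (S i).card) →
      (∀ i, ∀ x ∈ S i, |(x.num : ℝ)| ≤ H ∧ (x.den : ℝ) ≤ H) →
      (Set.ncard {z : Fin r → ℚ | (∀ i, z i ∈ S i) ∧ MvPolynomial.aeval z G ≠ (0 : ℚ) ∧
        (N : ℕ∞) < (preperiodic e (MvPolynomial.aeval z F / MvPolynomial.aeval z G)).encard} : ℝ) ≤
        C * H ^ ε * ((∏ i, ((S i).card : ℝ)) / m) := by
  classical
  set k : ℝ := (r : ℝ) * d + 1 with hk
  have hkpos : 0 < k := by positivity
  obtain ⟨N, C, h⟩ := Pool.Agent.Y673.PP.few_rat he (ε / k) (by positivity)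
  refine ⟨N, C * d, fun H hH F G hFG S m hm1 hm hS => ?_⟩
  set X : ℝ := H ^ (r * d + 1) with hX
  have hX1 : 1 ≤ X := one_le_pow₀ hH
  obtain ⟨hfin, hcard⟩ := h X hX1
  set J : Finset ℚ := hfin.toFinset with hJ
  set T : Set (Fin r → ℚ) := {z : Fin r → ℚ | (∀ i, z i ∈ S i) ∧ MvPolynomial.aeval z G ≠ (0 : ℚ) ∧
        (N : ℕ∞) < (preperiodic e (MvPolynomial.aeval z F / MvPolynomial.aeval z G)).encard}
    with hTdef
  have hTfin : T.Finite := ((Fintype.piFinset S).finite_toSet).subset fun z hz =>
    Finset.mem_coe.2 (Fintype.mem_piFinset.2 hz.1)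
  have hcount := Pool.Agent.Q327.MF.count_rat F G hFG.degree_left hFG.degree_right hFG.nonconstant S hm
    J hTfin.toFinset (fun z hz => by
      obtain ⟨h1, h2, h3⟩ := hTfin.mem_toFinset.1 hz
      refine ⟨h1, h2, hfin.mem_toFinset.2 ?_⟩
      obtain ⟨h9, h10⟩ := Pool.Agent.Q327.MF.value_ht F G hFG.degree_left hFG.degree_right hH
        hFG.length_left hFG.length_right z (fun i => hS i _ (h1 i)) h2
      refine ⟨?_, h10, h3⟩
      rw [Int.cast_abs]
      exact h9)
  rw [← Set.ncard_eq_toFinset_card T hTfin, ← Set.ncard_eq_toFinset_card _ hfin] at hcount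
  have hmpos : (0 : ℝ) < m := by exact_mod_cast hm1
  have hprod : (0 : ℝ) ≤ d * ∏ i, ((S i).card : ℝ) :=
    mul_nonneg (Nat.cast_nonneg _) (Finset.prod_nonneg fun _ _ => Nat.cast_nonneg _)
  have hexp : X ^ (ε / k) = H ^ ε := by
    rw [hX, ← Real.rpow_natCast, ← Real.rpow_mul (by linarith)]
    congr 1
    push_cast
    rw [← hk]
    field_simp
  rw [hexp] at hcard
  set q : ℕ := Set.ncard {c : ℚ | ((|c.num| : ℤ) : ℝ) ≤ X ∧ (c.den : ℝ) ≤ X ∧ (N : ℕ∞) <
      {z : ℚ | (Set.range fun k : ℕ => (fun w : ℚ => w ^ e + c)^[k] z).Finite}.encard} with hq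
  have hcount' : (m : ℝ) * (T.ncard : ℝ) ≤ (q : ℝ) * (d * ∏ i, ((S i).card : ℝ)) := by
    exact_mod_cast hcount
  have h1 := hcount'.trans (mul_le_mul_of_nonneg_right hcard hprod)
  rw [← mul_div_assoc, le_div_iff₀ hmpos]
  calc (T.ncard : ℝ) * m = m * T.ncard := mul_comm _ _
    _ ≤ C * H ^ ε * (d * ∏ i, ((S i).card : ℝ)) := h1
    _ = C * d * H ^ ε * ∏ i, ((S i).card : ℝ) := by ring

end Pool.Agent.Results.MP_c076ed_nt.EveryUnicriticalFamily
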