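import Mathlib
import Pool.Agent.Q195.HR3

/-!
# Preperiodic points of the rational maps `(P + c R) / Q`: one place, `c` arbitrary

Let `p` be a prime number and `P, Q, R` polynomials over `ℚ` with `p`-integral coefficients whose
leading coefficients are `p`-adic units, `deg P = d`, `deg Q ≤ d - 2`, `deg R ≤ d - 2`, such that
`Q(x)` and `R(x)` are `p`-adic units for all `p`-integral `x ∈ ℚ` (`Q` and `R` have no zeros modulo
`p`), and such that `d - deg R` is prime to `p (p - 1)`. There is a constant `C`, depending only on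
`d` and `p`, such that for all `c ∈ ℚ` the map `f = (P + c R) / Q` of the projective line has at
most `C` periodic points in `ℙ¹(ℚ)`. If `c` is not `p`-integral, then `f` has at most two
preperiodic points in `ℙ¹(ℚ)` (`∞` and at most one other point, which is a fixed point). If `c` is
`p`-integral and the derivative `f'(y)` is a `p`-adic unit for all `p`-integral `y`, then `f` has at
most `C` preperiodic points in `ℙ¹(ℚ)`.

Nothing is assumed at the other places: `c`, the denominators of the coefficients and the primes of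
bad reduction are arbitrary.

Proof. If `|c|_p > 1`, all affine points with finite orbit lie on the circle `|x|^(d - deg R) = |c|`,
on which `x^(d - deg R)` is determined up to a factor congruent to one; so all these points are
close to each other, and `f` expands their distances. If `|c|_p ≤ 1`, all finite orbits are
`p`-integral, `f` does not increase distances of `p`-integral points, and the derivative modulo
`p ^ 2` gives the universal period.
-/

set_option autoImplicit false

namespace Pool.Agent.Results.MP_c076ed_nt.PencilsAtOnePlace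

open Polynomial Module Function

/-- The self-map of `ℙ¹(ℚ) = ℚ ∪ {∞}` given by `A / Q`, for `deg Q < deg A`. -/
noncomputable def ratMap (A Q : ℚ[X]) : OnePoint ℚ → OnePoint ℚ := by
  classical
  exact fun x => Option.elim x OnePoint.infty fun x : ℚ =>
    if Q.eval x = 0 then OnePoint.infty else OnePoint.some (A.eval x / Q.eval x)

/-- The periodic points. -/
def periodic (f : OnePoint ℚ → OnePoint ℚ) : Set (OnePoint ℚ) := {x | ∃ n : ℕ, 0 < n ∧ f^[n] x = x}

/-- The preperiodic points: the forward orbit is finite. -/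
def preperiodic (f : OnePoint ℚ → OnePoint ℚ) : Set (OnePoint ℚ) :=
  {x | ∃ s t : ℕ, s < t ∧ f^[s] x = f^[t] x}

/-- The coefficients are `p`-integral and the leading coefficient is a `p`-adic unit. -/
def UnitLead (p : ℕ) (F : ℚ[X]) : Prop :=
  (∀ k, padicNorm p (F.coeff k) ≤ 1) ∧ padicNorm p F.leadingCoeff = 1

/-- The values at the `p`-integral rational numbers are `p`-adic units. -/
def UnitValues (p : ℕ) (F : ℚ[X]) : Prop := ∀ x : ℚ, padicNorm p x ≤ 1 → padicNorm p (F.eval x) = 1

lemma ratMap_infty (A Q : ℚ[X]) : ratMap A Q OnePoint.infty = OnePoint.infty := rfl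

lemma ratMap_some (A Q : ℚ[X]) (x : ℚ) (hx : Q.eval x ≠ 0) :
    ratMap A Q (OnePoint.some x) = OnePoint.some (A.eval x / Q.eval x) := by
  classical
  show (if Q.eval x = 0 then OnePoint.infty else OnePoint.some (A.eval x / Q.eval x)) = _
  rw [if_neg hx]

lemma iter_some (A Q : ℚ[X]) (hQ : ∀ x, Q.eval x ≠ 0) (n : ℕ) (x : ℚ) :
    (ratMap A Q)^[n] (OnePoint.some x) = OnePoint.some ((Pool.Agent.Q195.HR.rm A Q)^[n] x) := by
  induction n with
  | zero => rfl
  | succ n ih => rw [iterate_succ_apply', ih, iterate_succ_apply', ratMap_some _ _ _ (hQ _)]; rfl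

lemma encard_le_of_finset {α : Type*} (s : Set α) (n : ℕ)
    (h : ∀ Y : Finset α, (∀ P ∈ Y, P ∈ s) → Y.card ≤ n) : s.encard ≤ n := by
  classical
  by_contra hcon
  push Not at hcon
  have h1 : ((n + 1 : ℕ) : ℕ∞) ≤ s.encard := by
    push_cast
    exact Order.add_one_le_of_lt hcon
  obtain ⟨t, hts, ht⟩ := Set.exists_subset_encard_eq h1
  have hfin : t.Finite := Set.finite_of_encard_eq_coe ht
  have h2 := h hfin.toFinset (fun P hP => hts (by simpa using hP))
  have h3 : t.encard = (hfin.toFinset.card : ℕ∞) := hfin.encard_eq_coe_toFinset_card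
  rw [h3] at ht
  have h4 : hfin.toFinset.card = n + 1 := by exact_mod_cast ht
  omega

/-- points of the line and affine points -/
lemma encard_line (s : Set (OnePoint ℚ)) (n : ℕ) (h : {x : ℚ | OnePoint.some x ∈ s}.encard ≤ n) :
    s.encard ≤ (n + 1 : ℕ) := by
  have hsub : s ⊆ insert OnePoint.infty (OnePoint.some '' {x : ℚ | OnePoint.some x ∈ s}) := by
    intro x hx
    induction x using OnePoint.rec with
    | infty => exact Set.mem_insert _ _
    | coe x => exact Set.mem_insert_of_mem _ ⟨x, hx, rfl⟩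
  calc s.encard ≤ (insert OnePoint.infty (OnePoint.some '' {x : ℚ | OnePoint.some x ∈ s})).encard :=
        Set.encard_le_encard hsub
    _ ≤ (OnePoint.some '' {x : ℚ | OnePoint.some x ∈ s}).encard + 1 := Set.encard_insert_le _ _
    _ ≤ {x : ℚ | OnePoint.some x ∈ s}.encard + 1 := by
        gcongr
        exact Set.encard_image_le _ _
    _ ≤ (n : ℕ∞) + 1 := by gcongr
    _ = ((n + 1 : ℕ) : ℕ∞) := by push_cast; rfl

/-- the `p`-adic absolute value of the rational numbers -/
noncomputable def absP (p : ℕ) [Fact p.Prime] : AbsoluteValue ℚ ℝ where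
  toFun x := ‖(x : ℚ_[p])‖
  map_mul' x y := by push_cast; rw [norm_mul]
  nonneg' x := norm_nonneg _
  eq_zero' x := by rw [norm_eq_zero]; exact Rat.cast_eq_zero
  add_le' x y := by push_cast; exact norm_add_le _ _

/-- **Pencils of rational maps with conditions at one place.** Let `p` be a prime number and
`d ≥ 2`. There is a constant `B` such that for all polynomials `P, Q, R` over `ℚ` with `p`-integral
coefficients and `p`-adic units as leading coefficients, of degrees `d`, at most `d - 2` and at most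
`d - 2`, such that `d - deg R` is prime to `p (p - 1)` and the values of `Q` and `R` at `p`-integral
rational numbers are `p`-adic units, and for ALL rational numbers `c`, the map `f = (P + c R) / Q`
satisfies:

* `f` has at most `B` periodic points in `ℙ¹(ℚ)`;
* if `c` is not `p`-integral, then `f` has at most two preperiodic points in `ℙ¹(ℚ)`, and they are
  fixed points;
* if `c` is `p`-integral and the numerator of `f'(y)` is a `p`-adic unit for all `p`-integral
  `y ∈ ℚ`, then `f` has at most `B` preperiodic points in `ℙ¹(ℚ)`. -/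
theorem result (p : ℕ) [Fact p.Prime] (d : ℕ) (_hd : 2 ≤ d) : ∃ B : ℕ, ∀ P Q R : ℚ[X],
    P.natDegree = d → Q.natDegree + 2 ≤ d → R.natDegree + 2 ≤ d →
    Nat.Coprime (d - R.natDegree) (p * (p - 1)) →
    UnitLead p P → UnitLead p Q → UnitLead p R → UnitValues p Q → UnitValues p R →
    ∀ c : ℚ,
      (periodic (ratMap (P + C c * R) Q)).encard ≤ B ∧
      (1 < padicNorm p c → (preperiodic (ratMap (P + C c * R) Q)).encard ≤ 2 ∧
        ∀ x ∈ preperiodic (ratMap (P + C c * R) Q), ratMap (P + C c * R) Q x = x) ∧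
      (padicNorm p c ≤ 1 →
        UnitValues p ((P + C c * R).derivative * Q - (P + C c * R) * Q.derivative) →
        (preperiodic (ratMap (P + C c * R) Q)).encard ≤ B) := by
  have hp : p.Prime := Fact.out
  set C0 : ℕ := d ^ (Pool.Agent.Q195.HR.per1 p 1 + p ^ 1) + d ^ (p ^ 1) + 1 with hC0
  have hC1 : d ^ Pool.Agent.Q195.HR.per1 p 1 + d ^ 0 ≤ d ^ (Pool.Agent.Q195.HR.per1 p 1 + p ^ 1) + d ^ (p ^ 1) := by
    gcongr
    · omega
    · omega
    · omega
    · omega
  refine ⟨C0, ?_⟩
  intro P Q R hdP hdQ hdR hco hP hQ hR hvQ hvR c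
  let w : AbsoluteValue ℚ ℝ := absP p
  have hw : ∀ x : ℚ, w x = ((padicNorm p x : ℚ) : ℝ) := fun x => Padic.eq_padicNorm x
  have hw1 : ∀ x : ℚ, w x = 1 ↔ padicNorm p x = 1 := fun x => by rw [hw]; norm_cast
  have hwl : ∀ x : ℚ, w x ≤ 1 ↔ padicNorm p x ≤ 1 := fun x => by rw [hw]; norm_cast
  have hna : IsNonarchimedean w := by
    intro x y
    show ‖((x + y : ℚ) : ℚ_[p])‖ ≤ max ‖(x : ℚ_[p])‖ ‖(y : ℚ_[p])‖
    push_cast
    exact Padic.nonarchimedean _ _
  have hwp : w ((p : ℕ) : ℚ) < 1 := by
    show ‖(((p : ℕ) : ℚ) : ℚ_[p])‖ < 1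
    rw [Rat.cast_natCast]
    exact Padic.norm_p_lt_one
  have hfr : finrank ℚ ℚ ≤ 1 := by rw [finrank_self]
  have hiP : Pool.Agent.Q195.HR.Int' w P := fun k => (hwl _).2 (hP.1 k)
  have hiQ : Pool.Agent.Q195.HR.Int' w Q := fun k => (hwl _).2 (hQ.1 k)
  have hiR : Pool.Agent.Q195.HR.Int' w R := fun k => (hwl _).2 (hR.1 k)
  have hlP : w P.leadingCoeff = 1 := (hw1 _).2 hP.2
  have hlQ : w Q.leadingCoeff = 1 := (hw1 _).2 hQ.2
  have hlR : w R.leadingCoeff = 1 := (hw1 _).2 hR.2
  have huQ : ∀ x, w x ≤ 1 → w (Q.eval x) = 1 := fun x hx => (hw1 _).2 (hvQ x ((hwl x).1 hx))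
  have huR : ∀ x, w x ≤ 1 → w (R.eval x) = 1 := fun x hx => (hw1 _).2 (hvR x ((hwl x).1 hx))
  have hH : Pool.Agent.Q195.HR.Hyp w P Q R d Q.natDegree R.natDegree (d - R.natDegree) :=
    { iP := hiP, iQ := hiQ, iR := hiR, lP := hlP, lQ := hlQ, lR := hlR, dP := hdP, dQ := rfl,
      dR := rfl, hk := by omega, hk2 := by omega, he := hdQ, uQ := huQ, uR := huR }
  have hQ0 := Pool.Agent.Q195.HR.Q_ne hH hna
  set A : ℚ[X] := P + C c * R with hA
  have hit := iter_some A Q hQ0
  have hpre : ∀ x : ℚ, (OnePoint.some x : OnePoint ℚ) ∈ preperiodic (ratMap A Q) →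
      Pool.Agent.Q195.HR.PF (Pool.Agent.Q195.HR.rm A Q) x := by
    rintro x ⟨s, t, hst, h⟩
    rw [hit, hit] at h
    exact ⟨s, t, hst, Option.some_injective _ h⟩
  have hper : ∀ x : ℚ, (OnePoint.some x : OnePoint ℚ) ∈ periodic (ratMap A Q) →
      ∃ n : ℕ, 0 < n ∧ (Pool.Agent.Q195.HR.rm A Q)^[n] x = x := by
    rintro x ⟨n, hn, h⟩
    rw [hit] at h
    exact ⟨n, hn, Option.some_injective _ h⟩
  have hkp : Nat.Coprime (d - R.natDegree) p := hco.coprime_mul_right_right
  have hcop : ∀ f, 1 ≤ f → f ≤ 1 → Nat.Coprime (d - R.natDegree) (p ^ f - 1) := by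
    intro f h1 h2
    have : f = 1 := by omega
    subst this
    rw [pow_one]
    exact hco.coprime_mul_left_right
  -- large constants
  have hlarge : 1 < padicNorm p c → ∀ x y : ℚ, (OnePoint.some x : OnePoint ℚ) ∈
      preperiodic (ratMap A Q) → (OnePoint.some y : OnePoint ℚ) ∈ preperiodic (ratMap A Q) →
      x = y := by
    intro hc x y hx hy
    have hc' : 1 < w c := by rw [hw]; exact_mod_cast hc
    exact Pool.Agent.Q195.HR.large_unique hH hna 1 hfr hp hwp hkp hcop hc' (hpre x hx) (hpre y hy)
  have hle1 : 1 < padicNorm p c →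
      {x : ℚ | (OnePoint.some x : OnePoint ℚ) ∈ preperiodic (ratMap A Q)}.encard ≤ (1 : ℕ) := by
    intro hc
    rw [Nat.cast_one, Set.encard_le_one_iff]
    exact fun x y hx hy => hlarge hc x y hx hy
  have hperpre : periodic (ratMap A Q) ⊆ preperiodic (ratMap A Q) := by
    rintro x ⟨n, hn, h⟩
    exact ⟨0, n, hn, h.symm⟩
  -- integral constants
  have hI : padicNorm p c ≤ 1 → Pool.Agent.Q195.HR.HypI w A Q d := by
    intro hc
    have hc' : w c ≤ 1 := (hwl c).2 hc
    have hlt : (C c * R).natDegree < P.natDegree :=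
      lt_of_le_of_lt (natDegree_C_mul_le c R) (by omega)
    have hdA : A.natDegree = d := by
      rw [hA, natDegree_add_eq_left_of_natDegree_lt hlt, hdP]
    refine ⟨fun k => ?_, hiQ, ?_, hlQ, hdA, hdQ, huQ⟩
    · rw [hA, coeff_add, coeff_C_mul]
      refine (hna _ _).trans (max_le (hiP k) ?_)
      rw [map_mul]
      exact mul_le_one₀ hc' (w.nonneg _) (hiR k)
    · have hlc : A.leadingCoeff = P.leadingCoeff := by
        rw [hA, leadingCoeff, natDegree_add_eq_left_of_natDegree_lt hlt, coeff_add,
          coeff_eq_zero_of_natDegree_lt hlt, add_zero, leadingCoeff]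
      rw [hlc]
      exact hlP
  refine ⟨?_, fun hc => ⟨?_, ?_⟩, fun hc hder => ?_⟩
  · rcases le_or_gt (padicNorm p c) 1 with hc | hc
    · refine encard_line _ _ (encard_le_of_finset _ _ fun S hS => ?_)
      exact ((hI hc).count_per hna 1 hfr hp hwp S fun x hx => hper x (hS x hx)).trans hC1
    · refine (Set.encard_le_encard hperpre).trans ((encard_line _ _ (hle1 hc)).trans ?_)
      rw [hC0]
      have : 1 ≤ d ^ (Pool.Agent.Q195.HR.per1 p 1 + p ^ 1) := Nat.one_le_pow _ _ (by omega)
      exact_mod_cast (by omega : 1 + 1 ≤ d ^ (Pool.Agent.Q195.HR.per1 p 1 + p ^ 1) + d ^ (p ^ 1) + 1)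
  · have := encard_line _ _ (hle1 hc)
    exact_mod_cast this
  · intro x hx
    induction x using OnePoint.rec with
    | infty => rfl
    | coe x =>
      have hx' : ratMap A Q (OnePoint.some x) ∈ preperiodic (ratMap A Q) := by
        obtain ⟨s, t, hst, h⟩ := hx
        refine ⟨s, t, hst, ?_⟩
        rw [← iterate_succ_apply, ← iterate_succ_apply, iterate_succ_apply', iterate_succ_apply']
        exact congrArg _ h
      have h1 := ratMap_some A Q x (hQ0 x)
      rw [h1] at hx'
      have h2 := hlarge hc _ _ hx hx'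
      show ratMap A Q (OnePoint.some x) = OnePoint.some x
      rw [h1, ← h2]
  · refine encard_line _ _ (encard_le_of_finset _ _ fun S hS => ?_)
    refine (hI hc).count_pre hna 1 hfr hp hwp (fun y hy => ?_) S fun x hx => hpre x (hS x hx)
    have h1 := (hw1 _).2 (hder y ((hwl y).1 hy))
    rw [Polynomial.eval_sub, eval_mul, eval_mul] at h1
    unfold Pool.Agent.Q195.HR.dv
    rw [map_mul, h1, map_mul, map_inv₀, huQ y hy]
    norm_num

end Pool.Agent.Results.MP_c076ed_nt.PencilsAtOnePlace
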